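import Mathlib

/-!
# MP_c2491a_co : a spectral polytope with trivial symmetry group

Let `F` be the bipartite graph with `9 + 8` vertices and the `24` edges listed below (three
vertices of degree two, all others of degree three, no automorphism except the identity).  Let `G`
be the graph on the edges of `F` in which two edges are adjacent when they are disjoint.  The
`1`-eigenspace of `G` is the space of real edge weightings of `F` with zero sum at every vertex; it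
has dimension `8`.  The corresponding eigenpolytope is an `8`-dimensional polytope with `24`
vertices whose edge-graph is `G`, so it is spectral, and its symmetry group is trivial.
-/

set_option maxRecDepth 20000

namespace Pool.Agent.Results.MP_c2491a_co.AsymmetricSpectral

/-- The polytope whose list of vertices is `p` (the rows of the matrix `M_P`). -/
def polytope {n d : ℕ} (p : Fin n → Fin d → ℝ) : Set (Fin d → ℝ) :=
  convexHull ℝ (Set.range p)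

/-- The points `p i` are pairwise distinct and are vertices of their convex hull. -/
def IsVertexList {n d : ℕ} (p : Fin n → Fin d → ℝ) : Prop :=
  Function.Injective p ∧ ∀ i, p i ∈ (polytope p).extremePoints ℝ

/-- The edge-graph: `i` and `j` are adjacent when the segment from `p i` to `p j` is a face. -/
def edgeGraph {n d : ℕ} (p : Fin n → Fin d → ℝ) : SimpleGraph (Fin n) where
  Adj i j := i ≠ j ∧ IsExposed ℝ (polytope p) (segment ℝ (p i) (p j))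
  symm := ⟨fun i j h => ⟨h.1.symm, by
    have h2 := h.2
    rwa [segment_symm] at h2⟩⟩
  loopless := ⟨fun _ h => h.1 rfl⟩

open Classical in
/-- The adjacency matrix of the edge-graph. -/
noncomputable def adjacency {n d : ℕ} (p : Fin n → Fin d → ℝ) : Matrix (Fin n) (Fin n) ℝ :=
  (edgeGraph p).adjMatrix ℝ

/-- `P` is spectral: for some eigenvalue `θ` of the adjacency matrix of the edge-graph, the columns
of the matrix with rows `p i` form a basis of the `θ`-eigenspace. -/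
def IsSpectral {n d : ℕ} (p : Fin n → Fin d → ℝ) : Prop :=
  ∃ θ : ℝ, Module.End.HasEigenvalue (Matrix.toLin' (adjacency p)) θ ∧
    LinearIndependent ℝ (fun (k : Fin d) (i : Fin n) => p i k) ∧
    Submodule.span ℝ (Set.range (fun (k : Fin d) (i : Fin n) => p i k)) =
      Module.End.eigenspace (Matrix.toLin' (adjacency p)) θ

variable {n d : ℕ} {p : Fin n → Fin d → ℝ}

theorem mem_polytope (i : Fin n) : p i ∈ polytope p :=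
  subset_convexHull ℝ _ ⟨i, rfl⟩

theorem segment_subset (i j : Fin n) : segment ℝ (p i) (p j) ⊆ polytope p :=
  (convex_convexHull ℝ _).segment_subset (mem_polytope i) (mem_polytope j)

theorem le_of_mem (l : (Fin d → ℝ) →ₗ[ℝ] ℝ) (q : ℝ) (h : ∀ k, l (p k) ≤ q) :
    ∀ x ∈ polytope p, l x ≤ q := by
  intro x hx
  have hsub : polytope p ⊆ {x | l x ≤ q} := by
    apply convexHull_min
    · rintro _ ⟨k, rfl⟩
      exact h k
    · exact convex_halfSpace_le l.isLinear q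
  exact hsub hx

theorem mem_segment_of_eq (l : (Fin d → ℝ) →ₗ[ℝ] ℝ) (q : ℝ) (i j : Fin n)
    (hi : l (p i) = q) (hj : l (p j) = q) (h : ∀ k, k ≠ i → k ≠ j → l (p k) < q) :
    ∀ x ∈ polytope p, l x = q → x ∈ segment ℝ (p i) (p j) := by
  have hseg : ∀ y ∈ segment ℝ (p i) (p j), l y = q := by
    rintro y ⟨a, b, ha, hb, hab, rfl⟩
    rw [map_add, map_smul, map_smul, hi, hj, smul_eq_mul, smul_eq_mul, ← add_mul, hab, one_mul]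
  have hsub : polytope p ⊆ {x | l x < q ∨ x ∈ segment ℝ (p i) (p j)} := by
    apply convexHull_min
    · rintro _ ⟨k, rfl⟩
      by_cases hki : k = i
      · right; subst hki; exact left_mem_segment ℝ _ _
      by_cases hkj : k = j
      · right; subst hkj; exact right_mem_segment ℝ _ _
      left; exact h k hki hkj
    · intro x hx y hy a b ha hb hab
      rcases eq_or_lt_of_le ha with ha0 | ha0
      · rw [← ha0] at hab ⊢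
        rw [zero_add] at hab
        rw [hab]
        simpa using hy
      rcases eq_or_lt_of_le hb with hb0 | hb0
      · rw [← hb0] at hab ⊢
        rw [add_zero] at hab
        rw [hab]
        simpa using hx
      have hle : ∀ z, z ∈ {x | l x < q ∨ x ∈ segment ℝ (p i) (p j)} → l z ≤ q := by
        rintro z (hz | hz)
        · exact hz.le
        · exact (hseg z hz).le
      rcases hx with hx | hx
      · left
        rw [map_add, map_smul, map_smul, smul_eq_mul, smul_eq_mul]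
        have h1 := hle y hy
        have h2 : a * l x < a * q := mul_lt_mul_of_pos_left hx ha0
        have h3 : b * l y ≤ b * q := mul_le_mul_of_nonneg_left h1 hb
        have h4 : a * q + b * q = q := by rw [← add_mul, hab, one_mul]
        linarith
      · rcases hy with hy | hy
        · left
          rw [map_add, map_smul, map_smul, smul_eq_mul, smul_eq_mul]
          have h1 := (hseg x hx).le
          have h2 : b * l y < b * q := mul_lt_mul_of_pos_left hy hb0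
          have h3 : a * l x ≤ a * q := mul_le_mul_of_nonneg_left h1 ha
          have h4 : a * q + b * q = q := by rw [← add_mul, hab, one_mul]
          linarith
        · right
          exact (convex_segment (p i) (p j)) hx hy ha hb hab
  intro x hx hxq
  rcases hsub hx with h1 | h1
  · exact absurd hxq h1.ne
  · exact h1

theorem isExposed_of (l : (Fin d → ℝ) →ₗ[ℝ] ℝ) (q : ℝ) (i j : Fin n)
    (hi : l (p i) = q) (hj : l (p j) = q) (h : ∀ k, k ≠ i → k ≠ j → l (p k) < q) :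
    IsExposed ℝ (polytope p) (segment ℝ (p i) (p j)) := by
  intro _
  refine ⟨LinearMap.toContinuousLinearMap l, ?_⟩
  have hle : ∀ x ∈ polytope p, l x ≤ q := by
    apply le_of_mem
    intro k
    by_cases hki : k = i
    · rw [hki, hi]
    by_cases hkj : k = j
    · rw [hkj, hj]
    exact (h k hki hkj).le
  ext x
  constructor
  · intro hx
    refine ⟨segment_subset i j hx, fun y hy => ?_⟩
    obtain ⟨a, b, ha, hb, hab, rfl⟩ := hx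
    have h1 : l (a • p i + b • p j) = q := by
      rw [map_add, map_smul, map_smul, hi, hj, smul_eq_mul, smul_eq_mul, ← add_mul, hab, one_mul]
    show l y ≤ l (a • p i + b • p j)
    rw [h1]
    exact hle y hy
  · rintro ⟨hx, hmax⟩
    have h1 : l (p i) ≤ l x := hmax (p i) (mem_polytope i)
    have h2 := hle x hx
    exact mem_segment_of_eq l q i j hi hj h x hx (by linarith)

theorem not_isExposed_of (hv : IsVertexList p) (i j a b c e : Fin n) (hai : a ≠ i) (haj : a ≠ j)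
    (h : (2 : ℝ) • p i + (2 : ℝ) • p j = p a + p b + p c + p e) :
    ¬ IsExposed ℝ (polytope p) (segment ℝ (p i) (p j)) := by
  intro hexp
  obtain ⟨l, hl⟩ := hexp ⟨p i, left_mem_segment ℝ _ _⟩
  have hi : p i ∈ {x ∈ polytope p | ∀ y ∈ polytope p, l y ≤ l x} := by
    rw [← hl]; exact left_mem_segment ℝ _ _
  have hj : p j ∈ {x ∈ polytope p | ∀ y ∈ polytope p, l y ≤ l x} := by
    rw [← hl]; exact right_mem_segment ℝ _ _
  have h1 := congrArg l h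
  simp only [map_add, map_smul, smul_eq_mul] at h1
  have h2 := hi.2 _ (mem_polytope a)
  have h3 := hi.2 _ (mem_polytope b)
  have h4 := hi.2 _ (mem_polytope c)
  have h5 := hi.2 _ (mem_polytope e)
  have h6 := hi.2 _ (mem_polytope j)
  have h7 := hj.2 _ (mem_polytope i)
  have h8 : l (p a) = l (p i) := by linarith
  have h9 : p a ∈ segment ℝ (p i) (p j) := by
    rw [hl]
    refine ⟨mem_polytope a, fun y hy => ?_⟩
    rw [h8]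
    exact hi.2 y hy
  have h10 := (mem_extremePoints_iff_forall_segment.1 (hv.2 a)).2 (p i) (mem_polytope i) (p j)
    (mem_polytope j) h9
  rcases h10 with h11 | h11
  · exact hai (hv.1 h11).symm
  · exact haj (hv.1 h11).symm

/-- A linear symmetry of the polytope maps faces to faces. -/
theorem isExposed_image (T : (Fin d → ℝ) ≃ₗ[ℝ] (Fin d → ℝ)) (hT : T '' polytope p = polytope p)
    (x y : Fin d → ℝ) (h : IsExposed ℝ (polytope p) (segment ℝ x y)) :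
    IsExposed ℝ (polytope p) (segment ℝ (T x) (T y)) := by
  intro _
  obtain ⟨l, hl⟩ := h ⟨x, left_mem_segment ℝ _ _⟩
  refine ⟨LinearMap.toContinuousLinearMap (l.toLinearMap ∘ₗ T.symm.toLinearMap), ?_⟩
  have himg : segment ℝ (T x) (T y) = T '' segment ℝ x y := by
    have := image_segment ℝ (T.toLinearMap).toAffineMap x y
    exact this.symm
  have hval : ∀ z, (LinearMap.toContinuousLinearMap (l.toLinearMap ∘ₗ T.symm.toLinearMap)) z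
      = l (T.symm z) := fun z => rfl
  rw [himg, hl]
  ext z
  simp only [hval]
  constructor
  · rintro ⟨w, ⟨hw1, hw2⟩, rfl⟩
    refine ⟨?_, fun u hu => ?_⟩
    · rw [← hT]; exact ⟨w, hw1, rfl⟩
    · rw [T.symm_apply_apply]
      rw [← hT] at hu
      obtain ⟨u', hu', rfl⟩ := hu
      rw [T.symm_apply_apply]
      exact hw2 u' hu'
  · rintro ⟨hz1, hz2⟩
    rw [← hT] at hz1
    obtain ⟨w, hw, rfl⟩ := hz1
    refine ⟨w, ⟨hw, fun u hu => ?_⟩, rfl⟩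
    have h1 := hz2 (T u) (by rw [← hT]; exact ⟨u, hu, rfl⟩)
    rwa [T.symm_apply_apply, T.symm_apply_apply] at h1

/-- A linear symmetry of the polytope permutes the vertices. -/
theorem exists_perm (hv : IsVertexList p) (T : (Fin d → ℝ) ≃ₗ[ℝ] (Fin d → ℝ))
    (hT : T '' polytope p = polytope p) :
    ∃ π : Equiv.Perm (Fin n), ∀ i, T (p i) = p (π i) := by
  have h1 : ∀ i, ∃ j, T (p i) = p j := by
    intro i
    have h2 : T (p i) ∈ (polytope p).extremePoints ℝ := by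
      rw [← hT, ← image_extremePoints]
      exact ⟨p i, hv.2 i, rfl⟩
    obtain ⟨j, hj⟩ := extremePoints_convexHull_subset h2
    exact ⟨j, hj.symm⟩
  choose f hf using h1
  have hinj : Function.Injective f := by
    intro i j hij
    apply hv.1
    apply T.injective
    rw [hf i, hf j, hij]
  exact ⟨Equiv.ofBijective f ((Finite.injective_iff_bijective).1 hinj), hf⟩

theorem adj_perm (T : (Fin d → ℝ) ≃ₗ[ℝ] (Fin d → ℝ))
    (hT : T '' polytope p = polytope p) (π : Equiv.Perm (Fin n)) (hπ : ∀ i, T (p i) = p (π i))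
    (i j : Fin n) : (edgeGraph p).Adj (π i) (π j) ↔ (edgeGraph p).Adj i j := by
  have hT' : T.symm '' polytope p = polytope p := by
    conv_lhs => rw [← hT]
    rw [← Set.image_comp]
    have : (⇑T.symm ∘ ⇑T) = id := by
      ext x : 1
      simp
    rw [this, Set.image_id]
  have hs : ∀ i, T.symm (p (π i)) = p i := by
    intro i
    rw [← hπ i, T.symm_apply_apply]
  constructor
  · rintro ⟨h1, h2⟩
    refine ⟨fun h => h1 (by rw [h]), ?_⟩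
    have h3 := isExposed_image T.symm hT' _ _ h2
    rwa [hs, hs] at h3
  · rintro ⟨h1, h2⟩
    refine ⟨fun h => h1 (π.injective h), ?_⟩
    have h3 := isExposed_image T hT _ _ h2
    rwa [hπ, hπ] at h3

/-! ### Data -/

def edgeX : List ℕ := [0, 0, 1, 1, 2, 2, 3, 3, 3, 4, 4, 4, 5, 5, 5, 6, 6, 6, 7, 7, 7, 8, 8, 8]

def edgeY : List ℕ := [5, 6, 0, 7, 2, 4, 1, 2, 5, 0, 4, 6, 1, 6, 7, 3, 5, 7, 1, 3, 4, 0, 2, 3]

def rows : List (List ℤ) := [[1, 1, -1, -1, 0, 1, 1, 0],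
  [-1, -1, 1, 1, 0, -1, -1, 0],
  [1, 0, 0, 0, 0, 0, 0, 0],
  [-1, 0, 0, 0, 0, 0, 0, 0],
  [0, -1, 0, 0, 0, 0, 0, 0],
  [0, 1, 0, 0, 0, 0, 0, 0],
  [0, 0, -1, 0, 1, 1, 0, 0],
  [0, 1, 0, 0, 0, 0, 1, 1],
  [0, -1, 1, 0, -1, -1, -1, -1],
  [-1, 0, 0, 0, 0, 0, -1, 0],
  [0, -1, 0, 0, 0, -1, 0, 0],
  [1, 1, 0, 0, 0, 1, 1, 0],
  [0, 0, 1, 0, 0, 0, 0, 0],
  [0, 0, -1, -1, 0, 0, 0, 0],
  [0, 0, 0, 1, 0, 0, 0, 0],
  [0, 0, 0, 0, -1, 0, 0, -1],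
  [-1, 0, 0, 1, 1, 0, 0, 1],
  [1, 0, 0, -1, 0, 0, 0, 0],
  [0, 0, 0, 0, -1, -1, 0, 0],
  [0, 0, 0, 0, 1, 0, 0, 0],
  [0, 0, 0, 0, 0, 1, 0, 0],
  [0, 0, 0, 0, 0, 0, 1, 0],
  [0, 0, 0, 0, 0, 0, -1, -1],
  [0, 0, 0, 0, 0, 0, 0, 1]]

def fun1 : List (List (List ℤ)) := [
  [[2, 1, -1, -1, 0, -1, 1, 0, 1], [], [2, 2, -1, -2, 1, -1, 0, 0, 1], [2, -2, 1, 1, -2, 1, 1, 1, -1], [2, 1, -2, -1, 0, -1, 1, 1, 1], [2, 1, 2, -1, 0, 1, -1, -1, 0], [2, 1, -1, -1, 0, 0, 1, 0, 1], [2, 1, 0, -1, 0, 0, -1, 1, 1], [], [3, 1, 2, -1, -1, -1, 2, -4, 2], [3, 2, -2, -2, 0, 1, -1, 2, 1], [2, 1, -1, 0, 0, 0, 1, 1, 0], [3, -2, 0, 3, -4, 2, 2, 2, 0], [2, 1, -1, -2, 0, -1, 0, 0, 1], [3, 2, -1, -4, 3, -2, 0, 1, 1], [2, 1, -1, -2, 1, -2, 1, 0, 0], [], [2, 1, -1, 0, -1, 0, 1, 0, 1], [2, 1, 0, -2, 1, -2, 0, 0, 1], [2, 0, 1, 0, -1, 2, -1, 1, -1], [2, 0, -1, 0, -1, -1, 2, 0, 1], [2,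 0, -1, 0, -1, 1, 0, 2, 0], [2, 1, 1, -1, 0, 0, 0, -1, -1], [2, 1, -1, -1, 0, -1, 1, 0, 2]],
  [[], [2, 1, -1, 0, 1, 0, 0, -1, 1], [2, 2, -1, 1, 1, 1, 0, -1, 1], [2, -2, -1, 1, -1, 1, 0, 1, -1], [2, 1, -2, 0, 1, 0, 1, -1, 1], [2, 1, 2, 1, 0, 1, -2, -2, 1], [3, 1, -2, -2, 1, 1, 0, -3, 1], [3, 1, -1, 2, 2, -1, -1, 2, 2], [2, 1, -1, 1, 0, 0, 0, -1, 1], [2, 0, 0, 1, -1, 1, 0, -2, 1], [2, 1, -1, -1, 1, 1, -1, -1, 0], [], [2, 0, -1, 2, 0, 0, 1, 0, 1], [], [2, 1, -1, -1, 2, -1, 0, -1, 1], [3, -2, -2, -2, 2, -2, 1, 0, -1], [2, 0, -1, 0, 1, 0, 1, -1, 1], [3, 2, -2, 2, -1, 2, 0, -2, 2], [2, 1, 1, 0, 1, 0, -2, -1, 1], [2, 1, 0, 1, 0, 2, -1, -1, 0], [2, 0, -1, 1, 1, 0, 2, -1, 0], [2, -1, -1, 1, 1, 0, 0, 2, -1], [2, 1, 0, -1, 1, 1, -1, -2, 0], [2, 1, -1, 0, 0, 0, 0, -2, 2]],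
  [[2, 2, -1, -2, 1, -1, 0, 0, 1], [2, 2, -1, 1, 1, 1, 0, -1, 1], [2, 2, -1, -1, 1, -1, 1, -1, 1], [], [2, 2, -2, -1, 1, -1, 1, 0, 1], [2, 2, 2, -1, 1, 0, -1, -2, 1], [2, 2, -1, -2, 1, 0, 0, -1, 1], [2, 2, 1, -1, 1, 1, -2, 0, 1], [2, 2, -1, -1, 1, -1, 0, -1, 0], [], [2, 2, -1, -1, 1, 1, -1, 0, 1], [2, 2, -1, 0, 1, 0, 1, 0, 1], [3, 3, -2, 3, 1, 2, 2, -1, 1], [3, 3, -1, -4, 1, -1, -1, -2, 2], [2, 2, -1, -1, 2, 0, 0, 0, 1], [3, 3, -2, -3, 2, -3, 1, -1, 0], [3, 3, 0, -1, 2, 2, -1, 0, 2], [2, 2, -1, -1, 0, 0, 0, -1, 1], [2, 2, 0, -2, 1, -1, -1, -1, 1], [2, 2, 1, -1, 1, 2, -2, 0, -1], [2, 2, -1, -1, 1, -2, 2, -2, 1], [], [2, 2, 1, -2, 1, 0, -1, -2, 0], [2, 2, -1, -1, 1, -1, 1, -1, 2]],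
  [[2, -2, 1, 1, -2, 1, 1, 1, -1], [2, -2, -1, 1, -1, 1, 0, 1, -1], [], [2, -2, 0, 0, -1, 0, 1, 1, -1], [2, -2, -2, 0, -1, 0, 1, 1, 0], [2, -2, 2, -1, 0, 1, -1, 1, -2], [2, -2, 0, -1, 0, 0, 1, 1, -1], [2, -2, 0, 0, -1, -1, 1, 1, 1], [2, -2, -1, 1, -2, 1, 0, 1, -2], [2, -2, 0, 0, -1, 0, 1, 0, 0], [3, -3, -2, 0, -2, 2, -1, 2, -1], [3, -3, 2, 2, -1, 1, 2, 2, -2], [2, -2, 1, 2, -2, 1, 1, 1, -1], [2, -2, -1, 0, -2, 0, 1, 1, 0], [], [2, -2, 0, -1, 0, -1, 1, 1, -1], [2, -2, -1, 0, -1, 0, 1, 1, 1], [], [2, -2, 0, -1, 0, -1, -1, 1, 0], [2, -2, 1, 1, -2, 2, 0, 1, -2], [2, -2, -1, 1, -2, 0, 2, 1, 0], [2, -2, -1, 0, -1, 0, 1, 2, -1], [3, -3, 0, 1, -3, 2, 1, 1, -4], [3, -3, -2, 2, -4, 0, 2, 1, 3]],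
  [[2, 1, -2, -1, 0, -1, 1, 1, 1], [2, 1, -2, 0, 1, 0, 1, -1, 1], [2, 2, -2, -1, 1, -1, 1, 0, 1], [2, -2, -2, 0, -1, 0, 1, 1, 0], [2, 1, -2, -1, 0, -1, 1, 0, 1], [], [2, 1, -2, -1, 0, 0, 1, 0, 1], [], [2, 1, -2, -1, 0, -2, 1, -1, 1], [3, 0, -3, -1, -1, -1, 2, -3, 2], [2, 1, -2, -1, 0, 0, 0, 1, 1], [3, 2, -3, 1, 0, 1, 2, 2, 2], [2, 0, -2, 2, -1, 1, 1, 1, 1], [2, 0, -2, -1, -1, -1, 1, 0, 1], [2, 1, -2, -1, 2, -1, 1, 1, 0], [2, 0, -2, -1, 0, -1, 1, 1, -1], [2, 0, -2, 1, 0, 1, 1, 1, 1], [2, 1, -2, 0, -1, 0, 1, 0, 1], [3, 2, -3, -4, 2, -4, 1, -1, 2], [3, 1, -3, 2, -1, 3, 1, 2, 0], [2, 1, -2, 0, 0, -1, 2, 0, 1], [2, 0, -2, 0, 0, 0, 1, 2, 0], [], [2, 1, -2, -1, 0, -1, 1, 0, 2]],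
  [[2, 1, 2, -1, 0, 1, -1, -1, 0], [2, 1, 2, 1, 0, 1, -2, -2, 1], [2, 2, 2, -1, 1, 0, -1, -2, 1], [2, -2, 2, -1, 0, 1, -1, 1, -2], [], [2, 1, 2, -1, 0, 0, -1, -2, 1], [3, 2, 3, -3, 1, 2, -2, -3, 1], [2, 1, 2, 0, 0, 0, -1, -1, 1], [3, 1, 3, 2, -1, -2, 0, -2, 0], [2, 0, 2, 0, -1, 0, 0, -2, 1], [], [2, 1, 2, 0, 1, 1, 0, -1, 0], [2, 0, 2, 2, -1, 1, 0, -1, 0], [2, 0, 2, -2, 0, 1, -2, -1, 0], [2, 1, 2, -1, 2, 0, -1, -1, 0], [2, -1, 2, 0, 0, -1, 0, 0, -1], [2, 0, 2, -1, 1, 1, -1, -1, 0], [2, 1, 2, 0, -1, 1, -1, -2, 1], [2, 1, 2, -1, 0, 0, -2, -1, 0], [2, 1, 2, 0, 0, 2, -2, 0, -1], [], [3, 0, 3, -1, 1, 2, -4, 3, -4], [2, 1, 2, -1, 0, 1, -1, -2, 0], [3, 2, 3, -2, 0, 0, -1, -4, 3]],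
  [[2, 1, -1, -1, 0, 0, 1, 0, 1], [3, 1, -2, -2, 1, 1, 0, -3, 1], [2, 2, -1, -2, 1, 0, 0, -1, 1], [2, -2, 0, -1, 0, 0, 1, 1, -1], [2, 1, -2, -1, 0, 0, 1, 0, 1], [3, 2, 3, -3, 1, 2, -2, -3, 1], [2, 1, -1, -2, 1, 0, 0, 0, 1], [], [], [2, 0, 0, -1, 0, 0, 1, -2, 1], [2, 1, -1, -2, 1, 1, -1, 0, 0], [2, 1, 0, 0, 1, 1, 1, 0, 0], [], [2, 1, -1, -2, 0, 0, 0, -1, 1], [2, 1, -1, -2, 2, -1, 1, 0, 1], [2, 0, -1, -2, 1, -1, 1, 0, -1], [2, 1, -1, -1, 1, 1, 0, 0, 1], [2, 1, -1, 0, -1, 1, 1, -1, 1], [], [2, 1, 0, -1, 0, 2, -1, 0, 0], [2, 1, -1, 0, 0, 0, 2, -1, 1], [2, 0, -1, -1, 1, 1, 0, 2, -1], [2, 1, 0, -1, 0, 1, 0, -1, -1], [2, 1, -1, -1, 0, 0, 1, -1, 2]],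
  [[2, 1, 0, -1, 0, 0, -1, 1, 1], [3, 1, -1, 2, 2, -1, -1, 2, 2], [2, 2, 1, -1, 1, 1, -2, 0, 1], [2, -2, 0, 0, -1, -1, 1, 1, 1], [], [2, 1, 2, 0, 0, 0, -1, -1, 1], [], [2, 1, 1, 0, 0, 1, -1, 0, 1], [], [3, -2, 2, 0, -2, -1, 1, -1, 2], [2, 1, 0, -1, 0, 1, -2, 1, 1], [2, 1, 0, 0, 1, 0, 0, 1, 1], [2, -1, 0, 2, -2, 0, 1, 1, 1], [2, -1, 0, 0, -2, 1, -1, 1, 1], [3, 2, 1, -2, 3, -1, -1, 0, 2], [3, -2, 1, -1, 1, -3, 1, 2, 0], [2, 1, 1, 0, 1, 1, -1, 0, 1], [2, 1, 1, 1, -1, 1, -1, 0, 1], [2, 1, 1, -1, 1, -1, -1, 0, 1], [2, 0, 1, 0, -1, 2, -2, 1, 0], [3, -2, 0, 2, -2, -1, 3, 1, 2], [2, 0, 0, 0, 0, 1, -1, 2, 0], [], [2, 1, 0, -1, 0, 0, -1, 0, 2]],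
  [[], [2, 1, -1, 1, 0, 0, 0, -1, 1], [2, 2, -1, -1, 1, -1, 0, -1, 0], [2, -2, -1, 1, -2, 1, 0, 1, -2], [2, 1, -2, -1, 0, -2, 1, -1, 1], [3, 1, 3, 2, -1, -2, 0, -2, 0], [], [], [2, 1, -1, -1, 0, -1, 0, -1, 0], [2, 0, -1, 0, -1, -1, 1, -2, 1], [2, 1, -1, -1, 0, 0, -1, -1, 0], [3, 2, -2, 2, 1, -1, 2, 1, -1], [2, 0, -1, 2, -1, 0, 1, 1, -1], [2, 0, -1, -1, -1, -1, 0, -1, 0], [3, 2, -2, -2, 3, -2, 0, -1, 0], [2, 1, -1, -1, 1, -1, 0, 0, -1], [], [2, 1, -1, 0, -1, -1, 0, -1, 1], [2, 1, -1, -1, 0, -2, 0, -1, 1], [3, 1, -1, 2, -1, 3, -1, 1, -3], [2, 1, -1, 1, 0, -1, 2, -1, 0], [3, 0, -2, 2, -1, 1, 0, 3, -3], [2, 1, 0, -1, 0, 0, -1, -1, -1], [2, 1, -1, 0, 0, -2, 1, -2, 2]],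
  [[3, 1, 2, -1, -1, -1, 2, -4, 2], [2, 0, 0, 1, -1, 1, 0, -2, 1], [], [2, -2, 0, 0, -1, 0, 1, 0, 0], [3, 0, -3, -1, -1, -1, 2, -3, 2], [2, 0, 2, 0, -1, 0, 0, -2, 1], [2, 0, 0, -1, 0, 0, 1, -2, 1], [3, -2, 2, 0, -2, -1, 1, -1, 2], [2, 0, -1, 0, -1, -1, 1, -2, 1], [2, 0, 1, 0, -1, 0, 1, -2, 1], [], [], [2, -1, 1, 2, -2, 1, 1, -1, 0], [2, -1, 0, 0, -2, 0, 1, -1, 1], [2, 0, 1, -2, 2, -2, 1, -2, 1], [2, -1, 1, -1, 0, -2, 1, -1, 0], [2, 0, 1, -1, 0, 1, -1, -2, 1], [2, 0, 0, 1, -2, 0, 1, -2, 1], [2, 0, 1, -2, 1, -2, 0, -2, 1], [2, -1, 1, 1, -2, 2, 0, -1, 0], [2, 0, 0, 0, -1, -1, 2, -2, 1], [], [2, 0, 1, 0, -1, 0, 1, -2, 0], [2, 0, 1, 0, -1, -1, 1, -2, 2]],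
  [[3, 2, -2, -2, 0, 1, -1, 2, 1], [2, 1, -1, -1, 1, 1, -1, -1, 0], [2, 2, -1, -1, 1, 1, -1, 0, 1], [3, -3, -2, 0, -2, 2, -1, 2, -1], [2, 1, -2, -1, 0, 0, 0, 1, 1], [], [2, 1, -1, -2, 1, 1, -1, 0, 0], [2, 1, 0, -1, 0, 1, -2, 1, 1], [2, 1, -1, -1, 0, 0, -1, -1, 0], [], [2, 1, -1, -1, 0, 1, -1, 1, 0], [], [3, 1, -2, 3, -1, 2, -1, 2, 1], [2, 1, -1, -2, 0, 0, -1, 0, 1], [2, 1, -1, -2, 2, 0, -1, 1, 0], [2, 1, -1, -2, 1, 0, -1, 1, -2], [2, 1, -1, -1, 1, 1, -1, 0, 1], [2, 1, -1, 0, -1, 1, -1, 1, 0], [2, 1, -1, -2, 1, -1, -1, 0, 1], [2, 1, 0, -1, 0, 2, -2, 1, -1], [], [2, 0, -1, -1, 0, 1, -1, 2, -1], [2, 1, 0, -2, 1, 1, -2, 0, -2], [2, 1, -1, -1, 0, 0, -1, 0, 2]],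
  [[2, 1, -1, 0, 0, 0, 1, 1, 0], [], [2, 2, -1, 0, 1, 0, 1, 0, 1], [3, -3, 2, 2, -1, 1, 2, 2, -2], [3, 2, -3, 1, 0, 1, 2, 2, 2], [2, 1, 2, 0, 1, 1, 0, -1, 0], [2, 1, 0, 0, 1, 1, 1, 0, 0], [2, 1, 0, 0, 1, 0, 0, 1, 1], [3, 2, -2, 2, 1, -1, 2, 1, -1], [], [], [2, 1, -1, 0, 1, 0, 1, 1, 0], [2, 0, 0, 2, -1, 1, 1, 1, 0], [], [2, 1, -1, -1, 2, -1, 1, 1, 0], [2, 1, 0, 0, 1, -1, 1, 0, -1], [2, 0, 0, 1, 1, 1, 1, 1, 0], [3, 2, -2, 2, -1, 0, 2, 1, 1], [3, 2, -1, -1, 2, -3, 0, 2, 1], [2, 1, 0, 1, 0, 2, 0, 1, -1], [2, 1, -1, 1, 0, 0, 2, 0, 1], [2, 0, -1, 0, 1, 0, 1, 2, 0], [2, 1, 1, 0, 1, 0, 1, -1, -1], [3, 2, -1, 0, 1, -1, 2, 0, 3]],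
  [[3, -2, 0, 3, -4, 2, 2, 2, 0], [2, 0, -1, 2, 0, 0, 1, 0, 1], [3, 3, -2, 3, 1, 2, 2, -1, 1], [2, -2, 1, 2, -2, 1, 1, 1, -1], [2, 0, -2, 2, -1, 1, 1, 1, 1], [2, 0, 2, 2, -1, 1, 0, -1, 0], [], [2, -1, 0, 2, -2, 0, 1, 1, 1], [2, 0, -1, 2, -1, 0, 1, 1, -1], [2, -1, 1, 2, -2, 1, 1, -1, 0], [3, 1, -2, 3, -1, 2, -1, 2, 1], [2, 0, 0, 2, -1, 1, 1, 1, 0], [2, -1, 0, 2, -2, 1, 1, 1, 0], [], [], [3, -2, 0, 3, -2, -1, 2, 2, -2], [2, 0, 0, 2, 0, 1, 1, 0, 1], [2, 0, -1, 2, -2, 1, 1, 1, 0], [], [2, -1, 1, 2, -2, 2, 0, 1, -1], [2, 0, -1, 2, -1, 0, 2, 0, 1], [2, 0, -1, 2, -1, 1, 0, 2, -1], [2, -1, 1, 2, -2, 1, 1, 0, -2], [2, 0, -1, 2, -1, 0, 1, 0, 2]],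
  [[2, 1, -1, -2, 0, -1, 0, 0, 1], [], [3, 3, -1, -4, 1, -1, -1, -2, 2], [2, -2, -1, 0, -2, 0, 1, 1, 0], [2, 0, -2, -1, -1, -1, 1, 0, 1], [2, 0, 2, -2, 0, 1, -2, -1, 0], [2, 1, -1, -2, 0, 0, 0, -1, 1], [2, -1, 0, 0, -2, 1, -1, 1, 1], [2, 0, -1, -1, -1, -1, 0, -1, 0], [2, -1, 0, 0, -2, 0, 1, -1, 1], [2, 1, -1, -2, 0, 0, -1, 0, 1], [], [], [2, 1, -1, -2, 0, -1, 0, -1, 1], [], [2, -1, -1, -2, 0, -2, 1, 0, 0], [2, -1, 0, -1, -1, 1, -1, 0, 1], [2, 1, -1, -1, -1, 0, 0, -1, 1], [2, 1, 0, -2, 0, -1, -1, -1, 1], [2, 0, 1, -1, -1, 2, -2, 0, -1], [3, -1, -2, -1, -2, -2, 3, -1, 2], [3, -2, -2, 0, -3, 2, 0, 3, 0], [2, 1, 1, -2, 0, 0, -1, -2, 0], [2, 0, -1, -1, -1, -1, 1, -1, 2]],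
  [[3, 2, -1, -4, 3, -2, 0, 1, 1], [2, 1, -1, -1, 2, -1, 0, -1, 1], [2, 2, -1, -1, 2, 0, 0, 0, 1], [], [2, 1, -2, -1, 2, -1, 1, 1, 0], [2, 1, 2, -1, 2, 0, -1, -1, 0], [2, 1, -1, -2, 2, -1, 1, 0, 1], [3, 2, 1, -2, 3, -1, -1, 0, 2], [3, 2, -2, -2, 3, -2, 0, -1, 0], [2, 0, 1, -2, 2, -2, 1, -2, 1], [2, 1, -1, -2, 2, 0, -1, 1, 0], [2, 1, -1, -1, 2, -1, 1, 1, 0], [], [], [2, 1, -1, -1, 2, -1, 1, 0, 1], [2, 1, -1, -2, 2, -2, 1, 0, 0], [2, 1, 0, -2, 2, 0, -1, 0, 1], [], [2, 1, 0, -2, 2, -2, 0, 0, 1], [2, 1, 1, -1, 2, 2, -2, 1, -2], [2, 1, -1, -1, 2, -2, 2, -1, 1], [2, 0, -1, -1, 2, 0, 0, 2, -1], [2, 1, 1, -2, 2, -1, 0, -2, 0], [2, 1, -1, -2, 2, -2, 1, -1, 2]],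
  [[2, 1, -1, -2, 1, -2, 1, 0, 0], [3, -2, -2, -2, 2, -2, 1, 0, -1], [3, 3, -2, -3, 2, -3, 1, -1, 0], [2, -2, 0, -1, 0, -1, 1, 1, -1], [2, 0, -2, -1, 0, -1, 1, 1, -1], [2, -1, 2, 0, 0, -1, 0, 0, -1], [2, 0, -1, -2, 1, -1, 1, 0, -1], [3, -2, 1, -1, 1, -3, 1, 2, 0], [2, 1, -1, -1, 1, -1, 0, 0, -1], [2, -1, 1, -1, 0, -2, 1, -1, 0], [2, 1, -1, -2, 1, 0, -1, 1, -2], [2, 1, 0, 0, 1, -1, 1, 0, -1], [3, -2, 0, 3, -2, -1, 2, 2, -2], [2, -1, -1, -2, 0, -2, 1, 0, 0], [2, 1, -1, -2, 2, -2, 1, 0, 0], [2, 0, -1, -2, 1, -2, 1, 0, 0], [], [], [2, 0, -1, -2, 1, -2, 0, 1, 0], [], [2, 0, -1, -1, 1, -2, 2, 0, 0], [2, -1, -1, -1, 1, -1, 1, 2, -1], [2, 1, 0, -1, 1, -1, 1, -1, -1], []],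
  [[], [2, 0, -1, 0, 1, 0, 1, -1, 1], [3, 3, 0, -1, 2, 2, -1, 0, 2], [2, -2, -1, 0, -1, 0, 1, 1, 1], [2, 0, -2, 1, 0, 1, 1, 1, 1], [2, 0, 2, -1, 1, 1, -1, -1, 0], [2, 1, -1, -1, 1, 1, 0, 0, 1], [2, 1, 1, 0, 1, 1, -1, 0, 1], [], [2, 0, 1, -1, 0, 1, -1, -2, 1], [2, 1, -1, -1, 1, 1, -1, 0, 1], [2, 0, 0, 1, 1, 1, 1, 1, 0], [2, 0, 0, 2, 0, 1, 1, 0, 1], [2, -1, 0, -1, -1, 1, -1, 0, 1], [2, 1, 0, -2, 2, 0, -1, 0, 1], [], [2, 1, 0, -1, 1, 1, -1, 0, 1], [], [2, 0, 1, -2, 1, 0, -2, -1, 1], [2, 1, 1, 0, 1, 2, -1, 0, 0], [2, -1, -1, 1, 0, 0, 2, 1, 1], [2, -1, -1, 0, 0, 1, 0, 2, 0], [3, 1, 2, -2, 2, 2, -2, -3, 0], [2, 1, -1, -1, 1, 0, 0, 0, 2]],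
  [[2, 1, -1, 0, -1, 0, 1, 0, 1], [3, 2, -2, 2, -1, 2, 0, -2, 2], [2, 2, -1, -1, 0, 0, 0, -1, 1], [], [2, 1, -2, 0, -1, 0, 1, 0, 1], [2, 1, 2, 0, -1, 1, -1, -2, 1], [2, 1, -1, 0, -1, 1, 1, -1, 1], [2, 1, 1, 1, -1, 1, -1, 0, 1], [2, 1, -1, 0, -1, -1, 0, -1, 1], [2, 0, 0, 1, -2, 0, 1, -2, 1], [2, 1, -1, 0, -1, 1, -1, 1, 0], [3, 2, -2, 2, -1, 0, 2, 1, 1], [2, 0, -1, 2, -2, 1, 1, 1, 0], [2, 1, -1, -1, -1, 0, 0, -1, 1], [], [], [], [2, 1, -1, 0, -1, 0, 1, -1, 1], [2, 1, 0, 0, -1, -1, -1, 0, 1], [2, 1, 0, 0, -1, 2, -1, 0, 0], [2, 1, -1, 1, -1, 0, 2, -1, 1], [3, 0, -2, 2, -3, 2, 0, 3, 0], [2, 1, 0, 0, -1, 0, 1, -2, 0], [2, 1, -1, 0, -1, 0, 1, -1, 2]],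
  [[2, 1, 0, -2, 1, -2, 0, 0, 1], [2, 1, 1, 0, 1, 0, -2, -1, 1], [2, 2, 0, -2, 1, -1, -1, -1, 1], [2, -2, 0, -1, 0, -1, -1, 1, 0], [3, 2, -3, -4, 2, -4, 1, -1, 2], [2, 1, 2, -1, 0, 0, -2, -1, 0], [], [2, 1, 1, -1, 1, -1, -1, 0, 1], [2, 1, -1, -1, 0, -2, 0, -1, 1], [2, 0, 1, -2, 1, -2, 0, -2, 1], [2, 1, -1, -2, 1, -1, -1, 0, 1], [3, 2, -1, -1, 2, -3, 0, 2, 1], [], [2, 1, 0, -2, 0, -1, -1, -1, 1], [2, 1, 0, -2, 2, -2, 0, 0, 1], [2, 0, -1, -2, 1, -2, 0, 1, 0], [2, 0, 1, -2, 1, 0, -2, -1, 1], [2, 1, 0, 0, -1, -1, -1, 0, 1], [2, 1, 0, -2, 1, -1, -1, 0, 1], [], [], [3, 0, -1, -2, 1, -2, -1, 3, 0], [2, 1, 1, -2, 1, -1, -1, -2, 0], [2, 1, -1, -1, 0, -2, 0, 0, 2]],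
  [[2, 0, 1, 0, -1, 2, -1, 1, -1], [2, 1, 0, 1, 0, 2, -1, -1, 0], [2, 2, 1, -1, 1, 2, -2, 0, -1], [2, -2, 1, 1, -2, 2, 0, 1, -2], [3, 1, -3, 2, -1, 3, 1, 2, 0], [2, 1, 2, 0, 0, 2, -2, 0, -1], [2, 1, 0, -1, 0, 2, -1, 0, 0], [2, 0, 1, 0, -1, 2, -2, 1, 0], [3, 1, -1, 2, -1, 3, -1, 1, -3], [2, -1, 1, 1, -2, 2, 0, -1, 0], [2, 1, 0, -1, 0, 2, -2, 1, -1], [2, 1, 0, 1, 0, 2, 0, 1, -1], [2, -1, 1, 2, -2, 2, 0, 1, -1], [2, 0, 1, -1, -1, 2, -2, 0, -1], [2, 1, 1, -1, 2, 2, -2, 1, -2], [], [2, 1, 1, 0, 1, 2, -1, 0, 0], [2, 1, 0, 0, -1, 2, -1, 0, 0], [], [2, 1, 1, 0, 0, 2, -1, 0, 0], [], [2, 0, 0, 0, 0, 2, -1, 2, -2], [2, 1, 1, 0, 0, 2, -1, 0, -2], []],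
  [[2, 0, -1, 0, -1, -1, 2, 0, 1], [2, 0, -1, 1, 1, 0, 2, -1, 0], [2, 2, -1, -1, 1, -2, 2, -2, 1], [2, -2, -1, 1, -2, 0, 2, 1, 0], [2, 1, -2, 0, 0, -1, 2, 0, 1], [], [2, 1, -1, 0, 0, 0, 2, -1, 1], [3, -2, 0, 2, -2, -1, 3, 1, 2], [2, 1, -1, 1, 0, -1, 2, -1, 0], [2, 0, 0, 0, -1, -1, 2, -2, 1], [], [2, 1, -1, 1, 0, 0, 2, 0, 1], [2, 0, -1, 2, -1, 0, 2, 0, 1], [3, -1, -2, -1, -2, -2, 3, -1, 2], [2, 1, -1, -1, 2, -2, 2, -1, 1], [2, 0, -1, -1, 1, -2, 2, 0, 0], [2, -1, -1, 1, 0, 0, 2, 1, 1], [2, 1, -1, 1, -1, 0, 2, -1, 1], [], [], [2, 1, -1, 0, 0, -1, 2, -1, 1], [3, -2, -2, 1, -1, 0, 3, 3, -1], [2, 1, 0, 1, 0, 0, 2, -2, 0], [2, 1, -1, 0, 0, -1, 2, -1, 2]],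
  [[2, 0, -1, 0, -1, 1, 0, 2, 0], [2, -1, -1, 1, 1, 0, 0, 2, -1], [], [2, -2, -1, 0, -1, 0, 1, 2, -1], [2, 0, -2, 0, 0, 0, 1, 2, 0], [3, 0, 3, -1, 1, 2, -4, 3, -4], [2, 0, -1, -1, 1, 1, 0, 2, -1], [2, 0, 0, 0, 0, 1, -1, 2, 0], [3, 0, -2, 2, -1, 1, 0, 3, -3], [], [2, 0, -1, -1, 0, 1, -1, 2, -1], [2, 0, -1, 0, 1, 0, 1, 2, 0], [2, 0, -1, 2, -1, 1, 0, 2, -1], [3, -2, -2, 0, -3, 2, 0, 3, 0], [2, 0, -1, -1, 2, 0, 0, 2, -1], [2, -1, -1, -1, 1, -1, 1, 2, -1], [2, -1, -1, 0, 0, 1, 0, 2, 0], [3, 0, -2, 2, -3, 2, 0, 3, 0], [3, 0, -1, -2, 1, -2, -1, 3, 0], [2, 0, 0, 0, 0, 2, -1, 2, -2], [3, -2, -2, 1, -1, 0, 3, 3, -1], [2, 0, -1, 0, 0, 1, 0, 2, -1], [], []],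
  [[2, 1, 1, -1, 0, 0, 0, -1, -1], [2, 1, 0, -1, 1, 1, -1, -2, 0], [2, 2, 1, -2, 1, 0, -1, -2, 0], [3, -3, 0, 1, -3, 2, 1, 1, -4], [], [2, 1, 2, -1, 0, 1, -1, -2, 0], [2, 1, 0, -1, 0, 1, 0, -1, -1], [], [2, 1, 0, -1, 0, 0, -1, -1, -1], [2, 0, 1, 0, -1, 0, 1, -2, 0], [2, 1, 0, -2, 1, 1, -2, 0, -2], [2, 1, 1, 0, 1, 0, 1, -1, -1], [2, -1, 1, 2, -2, 1, 1, 0, -2], [2, 1, 1, -2, 0, 0, -1, -2, 0], [2, 1, 1, -2, 2, -1, 0, -2, 0], [2, 1, 0, -1, 1, -1, 1, -1, -1], [3, 1, 2, -2, 2, 2, -2, -3, 0], [2, 1, 0, 0, -1, 0, 1, -2, 0], [2, 1, 1, -2, 1, -1, -1, -2, 0], [2, 1, 1, 0, 0, 2, -1, 0, -2], [2, 1, 0, 1, 0, 0, 2, -2, 0], [], [2, 1, 1, -1, 0, 1, -1, -1, -1], []],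
  [[2, 1, -1, -1, 0, -1, 1, 0, 2], [2, 1, -1, 0, 0, 0, 0, -2, 2], [2, 2, -1, -1, 1, -1, 1, -1, 2], [3, -3, -2, 2, -4, 0, 2, 1, 3], [2, 1, -2, -1, 0, -1, 1, 0, 2], [3, 2, 3, -2, 0, 0, -1, -4, 3], [2, 1, -1, -1, 0, 0, 1, -1, 2], [2, 1, 0, -1, 0, 0, -1, 0, 2], [2, 1, -1, 0, 0, -2, 1, -2, 2], [2, 0, 1, 0, -1, -1, 1, -2, 2], [2, 1, -1, -1, 0, 0, -1, 0, 2], [3, 2, -1, 0, 1, -1, 2, 0, 3], [2, 0, -1, 2, -1, 0, 1, 0, 2], [2, 0, -1, -1, -1, -1, 1, -1, 2], [2, 1, -1, -2, 2, -2, 1, -1, 2], [], [2, 1, -1, -1, 1, 0, 0, 0, 2], [2, 1, -1, 0, -1, 0, 1, -1, 2], [2, 1, -1, -1, 0, -2, 0, 0, 2], [], [2, 1, -1, 0, 0, -1, 2, -1, 2], [], [], [2, 1, -1, -1, 0, -1, 1, -1, 2]]]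

def wit : List (List (List ℕ)) := [
  [[], [2, 3, 2, 3], [], [], [], [], [], [], [15, 17, 15, 17], [], [], [], [], [], [], [], [6, 7, 6, 7], [], [], [], [], [], [], []],
  [[2, 3, 2, 3], [], [], [], [], [], [], [], [], [], [], [12, 14, 12, 14], [], [9, 10, 9, 10], [], [], [], [], [], [], [], [], [], []],
  [[], [], [], [0, 1, 0, 1], [], [], [], [], [], [22, 23, 22, 23], [], [], [], [], [], [], [], [], [], [], [], [10, 11, 10, 11], [], []],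
  [[], [], [0, 1, 0, 1], [], [], [], [], [], [], [], [], [], [], [], [15, 16, 15, 16], [], [], [12, 13, 12, 13], [], [], [], [], [], []],
  [[], [], [], [], [], [0, 1, 0, 1], [], [21, 23, 21, 23], [], [], [], [], [], [], [], [], [], [], [], [], [], [], [6, 8, 6, 8], []],
  [[], [], [], [], [0, 1, 0, 1], [], [], [], [], [], [18, 19, 18, 19], [], [], [], [], [], [], [], [], [], [9, 11, 9, 11], [], [], []],
  [[], [], [], [], [], [], [], [0, 16, 0, 16], [4, 22, 4, 22], [], [], [], [19, 20, 19, 20], [], [], [], [], [], [13, 14, 13, 14], [], [], [], [], []],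
  [[], [], [], [], [21, 23, 21, 23], [], [0, 16, 0, 16], [], [12, 18, 12, 18], [], [], [], [], [], [], [], [], [], [], [], [], [], [5, 5, 0, 1], []],
  [[15, 17, 15, 17], [], [], [], [], [], [4, 22, 4, 22], [12, 18, 12, 18], [], [], [], [], [], [], [], [], [1, 1, 0, 1], [], [], [], [], [], [], []],
  [[], [], [22, 23, 22, 23], [], [], [], [], [], [], [], [1, 13, 1, 13], [5, 20, 5, 20], [], [], [], [], [], [], [], [], [], [3, 3, 0, 1], [], []],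
  [[], [], [], [], [], [18, 19, 18, 19], [], [], [], [1, 13, 1, 13], [], [2, 21, 2, 21], [], [], [], [], [], [], [], [], [4, 4, 0, 1], [], [], []],
  [[], [12, 14, 12, 14], [], [], [], [], [], [], [], [5, 20, 5, 20], [2, 21, 2, 21], [], [], [0, 0, 0, 1], [], [], [], [], [], [], [], [], [], []],
  [[], [], [], [], [], [], [19, 20, 19, 20], [], [], [], [], [], [], [3, 17, 3, 17], [1, 11, 1, 11], [], [], [], [7, 8, 7, 8], [], [], [], [], []],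
  [[], [9, 10, 9, 10], [], [], [], [], [], [], [], [], [], [0, 0, 0, 1], [3, 17, 3, 17], [], [6, 18, 6, 18], [], [], [], [], [], [], [], [], []],
  [[], [], [], [15, 16, 15, 16], [], [], [], [], [], [], [], [], [1, 11, 1, 11], [6, 18, 6, 18], [], [], [], [2, 2, 0, 1], [], [], [], [], [], []],
  [[], [], [], [], [], [], [], [], [], [], [], [], [], [], [], [], [3, 14, 3, 14], [0, 8, 0, 8], [], [21, 22, 21, 22], [], [], [], [18, 20, 18, 20]],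
  [[6, 7, 6, 7], [], [], [], [], [], [], [], [1, 1, 0, 1], [], [], [], [], [], [], [3, 14, 3, 14], [], [19, 23, 19, 23], [], [], [], [], [], []],
  [[], [], [], [12, 13, 12, 13], [], [], [], [], [], [], [], [], [], [], [2, 2, 0, 1], [0, 8, 0, 8], [19, 23, 19, 23], [], [], [], [], [], [], []],
  [[], [], [], [], [], [], [13, 14, 13, 14], [], [], [], [], [], [7, 8, 7, 8], [], [], [], [], [], [], [5, 10, 5, 10], [15, 23, 15, 23], [], [], []],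
  [[], [], [], [], [], [], [], [], [], [], [], [], [], [], [], [21, 22, 21, 22], [], [], [5, 10, 5, 10], [], [6, 12, 6, 12], [], [], [16, 17, 16, 17]],
  [[], [], [], [], [], [9, 11, 9, 11], [], [], [], [], [4, 4, 0, 1], [], [], [], [], [], [], [], [15, 23, 15, 23], [6, 12, 6, 12], [], [], [], []],
  [[], [], [10, 11, 10, 11], [], [], [], [], [], [], [3, 3, 0, 1], [], [], [], [], [], [], [], [], [], [], [], [], [15, 19, 15, 19], [4, 7, 4, 7]],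
  [[], [], [], [], [6, 8, 6, 8], [], [], [5, 5, 0, 1], [], [], [], [], [], [], [], [], [], [], [], [], [], [15, 19, 15, 19], [], [2, 9, 2, 9]],
  [[], [], [], [], [], [], [], [], [], [], [], [], [], [], [], [18, 20, 18, 20], [], [], [], [16, 17, 16, 17], [], [4, 7, 4, 7], [2, 9, 2, 9], []]]

def NN : List (List ℤ) := [[-71, 34, 39, -21, -30, 48, -2, 9, 11, -23, -14, 0, -37, 0, 0, -21, 39, 0, 18, 0, 0, 18, 0, 0],
  [22, -33, -33, 22, 55, -66, -11, -33, 33, 11, 33, 0, 44, 0, 0, 22, -33, 0, -11, 0, 0, -11, 0, 0],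
  [0, 0, 0, 0, 0, 0, 0, 0, 0, 0, 0, 0, 0, 0, 0, 0, 0, 0, 0, 0, 0, 0, 0, 0],
  [6, 1, -49, 1, -30, 37, -13, 31, -11, 43, -36, 0, 7, 0, 0, 1, 6, 0, 7, 0, 0, 7, 0, 0],
  [6, 1, 6, 1, -30, -18, -13, 31, -11, -12, 19, 0, 7, 0, 0, 1, 6, 0, 7, 0, 0, 7, 0, 0],
  [0, 0, 0, 0, 0, 0, 0, 0, 0, 0, 0, 0, 0, 0, 0, 0, 0, 0, 0, 0, 0, 0, 0, 0],
  [-13, 7, -13, 7, -45, 39, -91, 52, 33, 26, -32, 0, -6, 0, 0, 7, -13, 0, 49, 0, 0, -6, 0, 0],
  [-19, 6, -19, 6, 40, 2, 32, -89, 44, -17, 4, 0, -13, 0, 0, 6, -19, 0, -13, 0, 0, 42, 0, 0],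
  [38, -12, 38, -12, 30, -59, 46, 13, -88, -21, 47, 0, 26, 0, 0, -12, 38, 0, -29, 0, 0, -29, 0, 0],
  [-7, 8, -7, 8, 35, -34, 6, -27, 22, -41, 42, 0, 1, 0, 0, 8, -7, 0, 1, 0, 0, 1, 0, 0],
  [-7, 8, -7, 8, 35, -34, 6, -27, 22, 14, -13, 0, 1, 0, 0, 8, -7, 0, 1, 0, 0, 1, 0, 0],
  [20, -15, 20, -15, -100, 105, -25, 85, -55, 15, -65, 0, 5, 0, 0, -15, 20, 0, 5, 0, 0, 5, 0, 0],
  [0, 0, 0, 0, 0, 0, 0, 0, 0, 0, 0, 0, 0, 0, 0, 0, 0, 0, 0, 0, 0, 0, 0, 0],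
  [6, 1, 6, 1, 25, -18, 42, -24, -11, -12, 19, 0, -48, 0, 0, 1, 6, 0, 7, 0, 0, 7, 0, 0],
  [0, 0, 0, 0, 0, 0, 0, 0, 0, 0, 0, 0, 0, 0, 0, 0, 0, 0, 0, 0, 0, 0, 0, 0],
  [-7, 8, -7, 8, -20, 21, 6, 28, -33, 14, -13, 0, 1, 0, 0, -47, 48, 0, 1, 0, 0, 1, 0, 0],
  [26, -14, -84, 41, -20, 32, -38, 6, 44, 58, -46, 0, 12, 0, 0, 41, -84, 0, 12, 0, 0, 12, 0, 0],
  [-13, 7, 97, -48, 65, -71, 19, -58, 33, -84, 78, 0, -6, 0, 0, 7, -13, 0, -6, 0, 0, -6, 0, 0],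
  [6, 1, 6, 1, 25, -18, 42, -24, -11, -12, 19, 0, 7, 0, 0, 1, 6, 0, -48, 0, 0, 7, 0, 0],
  [0, 0, 0, 0, 0, 0, 0, 0, 0, 0, 0, 0, 0, 0, 0, 0, 0, 0, 0, 0, 0, 0, 0, 0],
  [0, 0, 0, 0, 0, 0, 0, 0, 0, 0, 0, 0, 0, 0, 0, 0, 0, 0, 0, 0, 0, 0, 0, 0],
  [0, 0, 0, 0, 0, 0, 0, 0, 0, 0, 0, 0, 0, 0, 0, 0, 0, 0, 0, 0, 0, 0, 0, 0],
  [6, 1, 6, 1, -30, 37, -13, 31, -11, 43, -36, 0, 7, 0, 0, 1, 6, 0, 7, 0, 0, -48, 0, 0],
  [0, 0, 0, 0, 0, 0, 0, 0, 0, 0, 0, 0, 0, 0, 0, 0, 0, 0, 0, 0, 0, 0, 0, 0]]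

def ff : List ℕ := [2, 5, 12, 14, 19, 20, 21, 23]

def colours : List (List ℕ) := [[1, 1, 1, 1, 1, 1, 1, 1, 1, 1, 1, 1, 1, 1, 1, 1, 1, 1, 1, 1, 1, 1, 1, 1],
  [20, 20, 20, 20, 20, 20, 19, 19, 19, 19, 19, 19, 19, 19, 19, 19, 19, 19, 19, 19, 19, 19, 19, 19],
  [736, 736, 736, 736, 736, 736, 785, 746, 746, 746, 746, 746, 785, 746, 746, 785, 746, 746, 785, 785, 746, 746, 746, 785],
  [360, 360, 360, 360, 360, 360, 337, 364, 364, 396, 396, 396, 337, 364, 364, 337, 364, 364, 305, 305, 332, 364, 364, 337],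
  [633, 632, 632, 633, 633, 660, 592, 617, 617, 611, 639, 611, 592, 616, 617, 592, 617, 617, 583, 583, 567, 616, 617, 592],
  [844, 813, 813, 844, 856, 884, 840, 783, 783, 747, 792, 747, 828, 772, 771, 840, 783, 783, 908, 908, 924, 772, 771, 828],
  [602, 660, 660, 575, 622, 680, 626, 565, 574, 657, 692, 657, 606, 608, 567, 626, 574, 547, 665, 665, 642, 608, 585, 606],
  [700, 684, 674, 681, 789, 706, 706, 714, 676, 624, 629, 624, 667, 636, 588, 636, 606, 615, 692, 692, 725, 650, 687, 681],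
  [692, 737, 806, 733, 833, 742, 778, 772, 729, 760, 717, 702, 763, 730, 704, 681, 646, 669, 743, 696, 689, 775, 784, 741]]

/-- Two edges of the underlying graph are disjoint. -/
def adj (i j : Fin 24) : Bool :=
  (edgeX.getD i.val 0 != edgeX.getD j.val 0) && (edgeY.getD i.val 0 != edgeY.getD j.val 0)

def M (i : Fin 24) (k : Fin 8) : ℤ := (rows.getD i.val []).getD k.val 0

def Lf (i j : Fin 24) (t : Fin 8) : ℤ := ((fun1.getD i.val []).getD j.val []).getD (t.val + 1) 0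

def Lq (i j : Fin 24) : ℤ := ((fun1.getD i.val []).getD j.val []).getD 0 0

def W (i j : Fin 24) (t : Fin 4) : Fin 24 :=
  Fin.ofNat 24 (((wit.getD i.val []).getD j.val []).getD t.val 0)

def col (t : ℕ) (i : Fin 24) : ℕ := (colours.getD t []).getD i.val 0

def NZ (i j : Fin 24) : ℤ := (NN.getD i.val []).getD j.val 0

def F (t : Fin 8) : Fin 24 := Fin.ofNat 24 (ff.getD t.val 0)

theorem cert : ∀ i j : Fin 24, (i = j ∨ adj i j = true) → ∀ k : Fin 24,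
    if k = i ∨ k = j then
      M k 0 * Lf i j 0 + M k 1 * Lf i j 1 + M k 2 * Lf i j 2 + M k 3 * Lf i j 3
      + M k 4 * Lf i j 4 + M k 5 * Lf i j 5 + M k 6 * Lf i j 6 + M k 7 * Lf i j 7 = Lq i j
    else
      M k 0 * Lf i j 0 + M k 1 * Lf i j 1 + M k 2 * Lf i j 2 + M k 3 * Lf i j 3
      + M k 4 * Lf i j 4 + M k 5 * Lf i j 5 + M k 6 * Lf i j 6 + M k 7 * Lf i j 7 < Lq i j := by
  decide +kernel

theorem witness : ∀ i j : Fin 24, i ≠ j → adj i j = false →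
    (W i j 0 ≠ i ∧ W i j 0 ≠ j) ∧ ∀ k : Fin 8,
      2 * M i k + 2 * M j k = M (W i j 0) k + M (W i j 1) k + M (W i j 2) k + M (W i j 3) k := by
  decide +kernel

theorem colstep : ∀ t : Fin 8, ∀ i : Fin 24,
    col (t.val + 1) i = ∑ j : Fin 24, if adj i j then (col t.val j) ^ 2 % 83 else 0 := by
  decide +kernel

theorem col0 : ∀ i : Fin 24, col 0 i = 1 := by decide +kernel

theorem colinj : ∀ i j : Fin 24, col 8 i = col 8 j → i = j := by decide +kernel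

theorem eig : ∀ i : Fin 24, ∀ k : Fin 8, (∑ j : Fin 24, if adj i j then M j k else 0) = M i k := by
  decide +kernel

theorem inverse : ∀ e g : Fin 24,
    (∑ h : Fin 24, NZ e h * ((if adj h g then 1 else 0) - (if h = g then 1 else 0))) =
      55 * ((if e = g then 1 else 0) - ∑ k : Fin 8, M e k * (if F k = g then 1 else 0)) := by
  decide +kernel

theorem unitRows : ∀ k t : Fin 8, M (F k) t = if k = t then 1 else 0 := by decide +kernel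

theorem rowsInj : ∀ i j : Fin 24, (∀ k, M i k = M j k) → i = j := by decide +kernel

/-! ### The polytope -/

/-- The vertices of the polytope. -/
def pt (i : Fin 24) : Fin 8 → ℝ := fun k => (M i k : ℝ)

/-- The exposing functionals. -/
noncomputable def lin (i j : Fin 24) : (Fin 8 → ℝ) →ₗ[ℝ] ℝ :=
  ∑ t : Fin 8, (Lf i j t : ℝ) • LinearMap.proj t

theorem lin_apply (i j k : Fin 24) : lin i j (pt k) =
    ((M k 0 * Lf i j 0 + M k 1 * Lf i j 1 + M k 2 * Lf i j 2 + M k 3 * Lf i j 3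
      + M k 4 * Lf i j 4 + M k 5 * Lf i j 5 + M k 6 * Lf i j 6 + M k 7 * Lf i j 7 : ℤ) : ℝ) := by
  simp only [lin, Fin.sum_univ_eight, LinearMap.add_apply, LinearMap.smul_apply,
    LinearMap.proj_apply, smul_eq_mul, pt]
  push_cast
  ring

theorem pt_exposed (i j : Fin 24) (hij : i = j ∨ adj i j = true) :
    IsExposed ℝ (polytope pt) (segment ℝ (pt i) (pt j)) := by
  have hc := cert i j hij
  apply isExposed_of (lin i j) (Lq i j : ℝ)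
  · have h := hc i
    rw [if_pos (Or.inl rfl)] at h
    rw [lin_apply, h]
  · have h := hc j
    rw [if_pos (Or.inr rfl)] at h
    rw [lin_apply, h]
  · intro k hki hkj
    have h := hc k
    rw [if_neg (by tauto)] at h
    rw [lin_apply]
    exact_mod_cast h

theorem pt_inj : Function.Injective pt := by
  intro i j h
  apply rowsInj
  intro k
  have h1 : (M i k : ℝ) = (M j k : ℝ) := congrFun h k
  exact_mod_cast h1

theorem pt_vertexList : IsVertexList pt := by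
  refine ⟨pt_inj, fun i => ?_⟩
  have h := (pt_exposed i i (Or.inl rfl)).isExtreme
  rw [segment_same, isExtreme_singleton] at h
  exact h

theorem pt_adj (i j : Fin 24) : (edgeGraph pt).Adj i j ↔ adj i j = true := by
  constructor
  · rintro ⟨hne, hexp⟩
    by_contra hadj
    have hadj' : adj i j = false := by simpa using hadj
    obtain ⟨⟨h1, h2⟩, h3⟩ := witness i j hne hadj'
    refine not_isExposed_of pt_vertexList i j (W i j 0) (W i j 1) (W i j 2) (W i j 3) h1 h2 ?_ hexp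
    ext k
    have h4 := h3 k
    have h5 : (2 : ℝ) * (M i k : ℝ) + 2 * (M j k : ℝ) = (M (W i j 0) k : ℝ) + (M (W i j 1) k : ℝ)
        + (M (W i j 2) k : ℝ) + (M (W i j 3) k : ℝ) := by exact_mod_cast h4
    exact h5
  · intro h
    refine ⟨?_, pt_exposed i j (Or.inr h)⟩
    rintro rfl
    simp [adj] at h

theorem adjacency_pt (i j : Fin 24) : adjacency pt i j = if adj i j = true then 1 else 0 := by
  unfold adjacency
  rw [SimpleGraph.adjMatrix_apply]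
  by_cases h : adj i j = true
  · rw [if_pos h, if_pos ((pt_adj i j).2 h)]
  · rw [if_neg h, if_neg (fun h' => h ((pt_adj i j).1 h'))]

theorem mulVec_pt (x : Fin 24 → ℝ) (i : Fin 24) :
    (Matrix.toLin' (adjacency pt)) x i = ∑ j, if adj i j = true then x j else 0 := by
  rw [Matrix.toLin'_apply, Matrix.mulVec, dotProduct]
  refine Finset.sum_congr rfl (fun j _ => ?_)
  rw [adjacency_pt]
  split_ifs <;> simp

theorem column_mem (k : Fin 8) :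
    (fun i => pt i k) ∈ Module.End.eigenspace (Matrix.toLin' (adjacency pt)) (1 : ℝ) := by
  rw [Module.End.mem_eigenspace_iff]
  ext i
  rw [mulVec_pt, one_smul]
  have h := eig i k
  have h2 : ((∑ j : Fin 24, if adj i j then M j k else 0 : ℤ) : ℝ) = (M i k : ℝ) := by rw [h]
  rw [← show ((∑ j : Fin 24, if adj i j then M j k else 0 : ℤ) : ℝ)
      = ∑ j, (if adj i j = true then pt j k else 0) by
    push_cast
    exact Finset.sum_congr rfl (fun j _ => by rfl)]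
  exact h2

theorem mem_span_of_mem (x : Fin 24 → ℝ)
    (hx : x ∈ Module.End.eigenspace (Matrix.toLin' (adjacency pt)) (1 : ℝ)) :
    x = ∑ k : Fin 8, x (F k) • (fun i => pt i k) := by
  rw [Module.End.mem_eigenspace_iff] at hx
  have hx1 : ∀ h : Fin 24, (∑ j, if adj h j = true then x j else 0) = x h := by
    intro h
    have h1 := congrFun hx h
    rwa [mulVec_pt, one_smul] at h1
  ext e
  -- combine the equations with the multipliers `NZ e h`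
  have key : ∀ g : Fin 24,
      (∑ h : Fin 24, (NZ e h : ℝ) * ((if adj h g then 1 else 0) - (if h = g then 1 else 0))) =
      55 * ((if e = g then 1 else 0) - ∑ k : Fin 8, (M e k : ℝ) * (if F k = g then 1 else 0)) := by
    intro g
    have h1 := inverse e g
    have h2 := congrArg (fun z : ℤ => (z : ℝ)) h1
    push_cast at h2
    exact h2
  have hL : ∑ g : Fin 24, (∑ h : Fin 24,
      (NZ e h : ℝ) * ((if adj h g then 1 else 0) - (if h = g then 1 else 0))) * x g = 0 := by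
    simp_rw [Finset.sum_mul]
    rw [Finset.sum_comm]
    apply Finset.sum_eq_zero
    intro h _
    have h3 : ∑ g : Fin 24, (NZ e h : ℝ) * ((if adj h g then 1 else 0) - (if h = g then 1 else 0))
        * x g = (NZ e h : ℝ) * ((∑ g, if adj h g = true then x g else 0) - x h) := by
      rw [mul_sub, Finset.mul_sum]
      have h4 : (NZ e h : ℝ) * x h = ∑ g : Fin 24, (NZ e h : ℝ) * (if h = g then 1 else 0) * x g := by
        rw [Finset.sum_eq_single h]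
        · simp
        · intro b _ hb
          rw [if_neg (fun hh => hb hh.symm)]
          simp
        · intro hh
          exact absurd (Finset.mem_univ _) hh
      rw [h4, ← Finset.sum_sub_distrib]
      refine Finset.sum_congr rfl (fun g _ => ?_)
      split_ifs <;> ring
    rw [h3, hx1 h]
    ring
  have hR : ∑ g : Fin 24,
      (55 * ((if e = g then 1 else 0) - ∑ k : Fin 8, (M e k : ℝ) * (if F k = g then 1 else 0))) * x g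
      = 55 * (x e - ∑ k : Fin 8, (M e k : ℝ) * x (F k)) := by
    have h5 : ∀ g : Fin 24,
        (55 * ((if e = g then 1 else 0) - ∑ k : Fin 8, (M e k : ℝ) * (if F k = g then 1 else 0)))
          * x g = 55 * ((if e = g then x g else 0) -
            ∑ k : Fin 8, (M e k : ℝ) * (if F k = g then x g else 0)) := by
      intro g
      rw [mul_assoc, sub_mul, Finset.sum_mul]
      congr 2
      · split_ifs <;> ring
      · refine Finset.sum_congr rfl (fun k _ => ?_)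
        split_ifs <;> ring
    simp_rw [h5]
    rw [← Finset.mul_sum, Finset.sum_sub_distrib, Finset.sum_comm]
    congr 2
    · rw [Finset.sum_ite_eq]
      simp
    · refine Finset.sum_congr rfl (fun k _ => ?_)
      rw [← Finset.mul_sum, Finset.sum_ite_eq]
      simp
  have hmain : 55 * (x e - ∑ k : Fin 8, (M e k : ℝ) * x (F k)) = 0 := by
    refine hR.symm.trans (Eq.trans ?_ hL)
    refine Finset.sum_congr rfl (fun g _ => ?_)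
    rw [key g]
  have h6 : x e = ∑ k : Fin 8, (M e k : ℝ) * x (F k) := by linarith
  rw [Finset.sum_apply, h6]
  refine Finset.sum_congr rfl (fun k _ => ?_)
  rw [Pi.smul_apply, smul_eq_mul, mul_comm]
  rfl

theorem pt_linearIndependent : LinearIndependent ℝ (fun (k : Fin 8) (i : Fin 24) => pt i k) := by
  rw [Fintype.linearIndependent_iff]
  intro g hg k
  have h1 := congrFun hg (F k)
  rw [Finset.sum_apply] at h1
  have h2 : ∀ t : Fin 8, (g t • fun i => pt i t) (F k) = if k = t then g t else 0 := by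
    intro t
    rw [Pi.smul_apply, smul_eq_mul]
    show g t * (M (F k) t : ℝ) = _
    rw [unitRows]
    split_ifs <;> simp
  simp_rw [h2] at h1
  rw [Finset.sum_ite_eq] at h1
  simpa using h1

theorem pt_isSpectral : IsSpectral pt := by
  refine ⟨1, ?_, pt_linearIndependent, ?_⟩
  · rw [Module.End.hasEigenvalue_iff]
    intro hbot
    have h1 := column_mem 0
    rw [hbot, Submodule.mem_bot] at h1
    have h2 := congrFun h1 (F 0)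
    have h3 : (M (F 0) 0 : ℝ) = 0 := h2
    rw [unitRows] at h3
    simp at h3
  · apply le_antisymm
    · rw [Submodule.span_le]
      rintro _ ⟨k, rfl⟩
      exact column_mem k
    · intro x hx
      rw [mem_span_of_mem x hx]
      exact Submodule.sum_mem _ (fun k _ => Submodule.smul_mem _ _ (Submodule.subset_span ⟨k, rfl⟩))

theorem colour_perm (π : Equiv.Perm (Fin 24)) (h : ∀ i j, adj (π i) (π j) = adj i j) :
    ∀ t : ℕ, t ≤ 8 → ∀ i, col t (π i) = col t i := by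
  intro t
  induction t with
  | zero =>
    intro _ i
    rw [col0, col0]
  | succ t ih =>
    intro ht i
    have h1 := colstep ⟨t, by omega⟩
    rw [h1, h1, ← Equiv.sum_comp π]
    refine Finset.sum_congr rfl (fun j _ => ?_)
    rw [h, ih (by omega)]

theorem pt_symmetry (T : (Fin 8 → ℝ) ≃ₗ[ℝ] (Fin 8 → ℝ)) (hT : T '' polytope pt = polytope pt) :
    T = LinearEquiv.refl ℝ (Fin 8 → ℝ) := by
  obtain ⟨π, hπ⟩ := exists_perm pt_vertexList T hT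
  have hadj : ∀ i j, adj (π i) (π j) = adj i j := by
    intro i j
    have h1 := adj_perm T hT π hπ i j
    rw [pt_adj, pt_adj] at h1
    exact Bool.eq_iff_iff.2 h1
  have hid : ∀ i, π i = i := fun i => colinj _ _ (colour_perm π hadj 8 le_rfl i)
  have hfix : ∀ i, T (pt i) = pt i := by
    intro i
    rw [hπ, hid]
  have hunit : ∀ k : Fin 8, pt (F k) = Pi.single k 1 := by
    intro k
    ext t
    show (M (F k) t : ℝ) = _
    rw [unitRows, Pi.single_apply]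
    by_cases hkt : k = t
    · rw [if_pos hkt, if_pos hkt.symm]; simp
    · rw [if_neg hkt, if_neg (fun h => hkt h.symm)]; simp
  apply LinearEquiv.toLinearMap_injective
  refine LinearMap.pi_ext' (fun k => ?_)
  ext1
  show T (Pi.single k 1) = Pi.single k 1
  rw [← hunit, hfix]

/-- **Main result.**  There is a spectral polytope with trivial symmetry group. -/
theorem result : ∃ p : Fin 24 → Fin 8 → ℝ, IsVertexList p ∧ IsSpectral p ∧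
    ∀ T : (Fin 8 → ℝ) ≃ₗ[ℝ] (Fin 8 → ℝ), T '' polytope p = polytope p →
      T = LinearEquiv.refl ℝ (Fin 8 → ℝ) :=
  ⟨pt, pt_vertexList, pt_isSpectral, pt_symmetry⟩

end Pool.Agent.Results.MP_c2491a_co.AsymmetricSpectral
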